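import Pool.Agent.Q264.HM.Stm

set_option autoImplicit false

namespace Q123.HM

open Pool.Agent.Q264.HM

section
variable {H : Type} [Group H] (F : Subgroup H)

/-- the left coset of the inverse -/
def qq (h : H) : H ⧸ F := ((h⁻¹ : H) : H ⧸ F)

/-- a representative of a left coset -/
noncomputable def rr (x : H ⧸ F) : H := Quotient.out x

theorem rr_mk (x : H ⧸ F) : ((rr F x : H) : H ⧸ F) = x := Quotient.out_eq' x

theorem mem (h : H) : h * rr F (qq F h) ∈ F := by
  have h1 : ((rr F (qq F h) : H) : H ⧸ F) = ((h⁻¹ : H) : H ⧸ F) := rr_mk F _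
  have h2 := QuotientGroup.eq.1 h1.symm
  rwa [inv_inv] at h2

theorem qq_mul (g h : H) (hg : g ∈ F) : qq F (g * h) = qq F h := by
  unfold qq
  rw [mul_inv_rev]
  exact QuotientGroup.mk_mul_of_mem _ (F.inv_mem hg)

theorem qq_inv (x : H ⧸ F) : qq F (rr F x)⁻¹ = x := by
  unfold qq
  rw [inv_inv]
  exact rr_mk F x

end

/-- job COSET -/
theorem t_COSET : S_COSET := by
  intro H _ n F _ e
  have : Finite (H ⧸ F) := inferInstance
  obtain ⟨N, ⟨E⟩⟩ := Finite.exists_equiv_fin (H ⧸ F)
  refine ⟨N, ⟨?_⟩⟩
  exact
    { ι := F.subtype.comp e.symm.toMonoidHom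
      inj := by
        intro a b hab
        have h1 : ((e.symm a : F) : H) = ((e.symm b : F) : H) := hab
        exact e.symm.injective (Subtype.ext h1)
      σ := fun c => (rr F (E.symm c))⁻¹
      κ := fun h => E (qq F h)
      f := fun h => e ⟨h * rr F (qq F h), mem F h⟩
      eq := by
        intro h
        have h1 : (F.subtype.comp e.symm.toMonoidHom) (e ⟨h * rr F (qq F h), mem F h⟩) =
            h * rr F (qq F h) := by
          change ((e.symm (e ⟨h * rr F (qq F h), mem F h⟩) : F) : H) = _
          rw [MulEquiv.symm_apply_apply]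
        rw [h1, Equiv.symm_apply_apply, mul_assoc, mul_inv_cancel, mul_one]
      f_mul := by
        intro g h
        have hg : (F.subtype.comp e.symm.toMonoidHom) g = ((e.symm g : F) : H) := rfl
        have hq : qq F ((F.subtype.comp e.symm.toMonoidHom) g * h) = qq F h := by
          rw [hg]
          exact qq_mul F _ _ (e.symm g).2
        have h2 : (⟨(F.subtype.comp e.symm.toMonoidHom) g * h *
            rr F (qq F ((F.subtype.comp e.symm.toMonoidHom) g * h)), mem F _⟩ : F) =
            e.symm g * ⟨h * rr F (qq F h), mem F h⟩ := by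
          apply Subtype.ext
          simp only [Subgroup.coe_mul]
          rw [hq, hg, mul_assoc]
        rw [h2, map_mul, MulEquiv.apply_symm_apply]
      κ_mul := by
        intro g h
        have hq : qq F ((F.subtype.comp e.symm.toMonoidHom) g * h) = qq F h :=
          qq_mul F _ _ (e.symm g).2
        rw [hq]
      κσ := by
        intro c
        simp only [qq_inv, Equiv.apply_symm_apply]
      fσ := by
        intro c
        have h2 : (⟨(rr F (E.symm c))⁻¹ * rr F (qq F (rr F (E.symm c))⁻¹), mem F _⟩ : F) = 1 := by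
          apply Subtype.ext
          simp only [Subgroup.coe_one]
          rw [qq_inv, inv_mul_cancel]
        rw [h2, map_one] }

end Q123.HM
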